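import Pool.Agent.H.MP_96e181_an.spw.Orbits
import Pool.Agent.H.MP_96e181_an.spw.OldHyp

/-!
# MP_96e181 — measures invariant under few multipliers

Let `P` be a set of pairwise coprime integers `≥ 2` and let `A(y)` be the number of elements of `P`
in `[1, y]`.  Suppose that

* `A(y) ≥ 1000 log log log y` for all large `y`;
* `A(y) / (log y)^4` is unbounded as `y → ∞`.

Then for every `ε > 0` there is a `C` such that for every `y`, every probability measure `μ` on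
`ℝ/ℤ` invariant under `x ↦ p x` for the `p ∈ P` with `p ≤ y`, and all integers `0 < |k| ≤ 1/ε`,

`|∫ e(k x) dμ| ≤ ε + C μ {x : ‖b x‖ ≤ exp(-exp(exp(A(y)/C))) for some 1 ≤ b ≤ C}`.

`atomless`: an atomless measure invariant under all `p ∈ P` is Lebesgue measure.
`weak`: `P`-invariant probability measures `μ_n` with `μ_n {x | b x = 0} → 0` for every `b ≥ 1`
converge weakly to Lebesgue measure.
`orbits`: finite sets of points of order between `C` and `exp(exp(exp(A(y)/C)))` which are permuted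
by the `p ∈ P`, `p ≤ y`, are equidistributed up to `ε`.
`cosets`: if `N ≥ C`, `A(y) ≥ C log log log N` and a subgroup `H` of `(ℤ/N)ˣ` contains the `p ∈ P`, `p ≤ y`,
then every coset of `H` is equidistributed up to `ε`.
`first_primes`: the same for the set of all primes: subgroups containing the first
`C log log log N` primes.
`growth_of_summable`: the first condition holds if the sum over `j` of `1 / A(2^(2^j))` is finite.
-/

set_option autoImplicit false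

open MeasureTheory Filter Topology

namespace Pool.Agent.Results.MP_96e181_an.FewMultipliers

theorem result (P : Set ℕ) (hP : ∀ p ∈ P, 2 ≤ p) (hco : P.Pairwise Nat.Coprime)
    (h1 : ∀ᶠ y : ℕ in atTop, 1000 * Real.log (Real.log (Real.log y)) ≤
      ((P ∩ Set.Iic y).ncard : ℝ))
    (h2 : ∀ C : ℝ, ∃ᶠ y : ℕ in atTop, C * Real.log y ^ 4 ≤ ((P ∩ Set.Iic y).ncard : ℝ))
    (ε : ℝ) (hε : 0 < ε) :
    ∃ C : ℕ, 1 ≤ C ∧ ∀ (y : ℕ) (μ : Measure UnitAddCircle), IsProbabilityMeasure μ →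
      (∀ p ∈ P, p ≤ y → MeasurePreserving (fun x : UnitAddCircle => p • x) μ μ) →
      ∀ k : ℤ, k ≠ 0 → |(k : ℝ)| ≤ 1 / ε →
      ‖∫ x, (fourier k x : ℂ) ∂μ‖ ≤ ε + C * μ.real {x | ∃ b : ℕ, 1 ≤ b ∧ b ≤ C ∧
        ‖b • x‖ ≤ Real.exp (-Real.exp (Real.exp (((P ∩ Set.Iic y).ncard : ℝ) / C)))} :=
  Furst96.Spw.quant P hP hco h1 h2 ε hε

theorem atomless (P : Set ℕ) (hP : ∀ p ∈ P, 2 ≤ p) (hco : P.Pairwise Nat.Coprime)
    (h1 : ∀ᶠ y : ℕ in atTop, 1000 * Real.log (Real.log (Real.log y)) ≤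
      ((P ∩ Set.Iic y).ncard : ℝ))
    (h2 : ∀ C : ℝ, ∃ᶠ y : ℕ in atTop, C * Real.log y ^ 4 ≤ ((P ∩ Set.Iic y).ncard : ℝ))
    (μ : Measure UnitAddCircle) (hμ : IsProbabilityMeasure μ) (hat : ∀ x, μ {x} = 0)
    (hinv : ∀ p ∈ P, MeasurePreserving (fun x : UnitAddCircle => p • x) μ μ) :
    μ = (volume : Measure UnitAddCircle) :=
  Furst96.Spw.atomless P hP hco h1 h2 μ hat hinv

theorem weak (P : Set ℕ) (hP : ∀ p ∈ P, 2 ≤ p) (hco : P.Pairwise Nat.Coprime)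
    (h1 : ∀ᶠ y : ℕ in atTop, 1000 * Real.log (Real.log (Real.log y)) ≤
      ((P ∩ Set.Iic y).ncard : ℝ))
    (h2 : ∀ C : ℝ, ∃ᶠ y : ℕ in atTop, C * Real.log y ^ 4 ≤ ((P ∩ Set.Iic y).ncard : ℝ))
    (μ : ℕ → Measure UnitAddCircle) (hμ : ∀ n, IsProbabilityMeasure (μ n))
    (hinv : ∀ n, ∀ p ∈ P, MeasurePreserving (fun x : UnitAddCircle => p • x) (μ n) (μ n))
    (htor : ∀ b : ℕ, 1 ≤ b → Tendsto (fun n => μ n {x | b • x = 0}) atTop (𝓝 0))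
    (f : UnitAddCircle → ℝ) (hf : Continuous f) :
    Tendsto (fun n => ∫ x, f x ∂(μ n)) atTop (𝓝 (∫ x, f x)) :=
  Furst96.Spw.weak_full P hP hco h1 h2 μ hμ hinv htor f hf

theorem orbits (P : Set ℕ) (hP : ∀ p ∈ P, 2 ≤ p) (hco : P.Pairwise Nat.Coprime)
    (h1 : ∀ᶠ y : ℕ in atTop, 1000 * Real.log (Real.log (Real.log y)) ≤
      ((P ∩ Set.Iic y).ncard : ℝ))
    (h2 : ∀ C : ℝ, ∃ᶠ y : ℕ in atTop, C * Real.log y ^ 4 ≤ ((P ∩ Set.Iic y).ncard : ℝ))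
    (ε : ℝ) (hε : 0 < ε) :
    ∃ C : ℕ, 1 ≤ C ∧ ∀ (y : ℕ) (S : Finset UnitAddCircle),
      (∀ p ∈ P, p ≤ y → ∀ x ∈ S, p • x ∈ S) →
      (∀ p ∈ P, p ≤ y → Set.InjOn (fun x : UnitAddCircle => p • x) S) →
      (∀ x ∈ S, C ≤ addOrderOf x ∧ C * Real.log (Real.log (Real.log (addOrderOf x))) ≤
        ((P ∩ Set.Iic y).ncard : ℝ)) →
      ∀ k : ℤ, k ≠ 0 → |(k : ℝ)| ≤ 1 / ε → ‖∑ x ∈ S, (fourier k x : ℂ)‖ ≤ ε * S.card :=
  Furst96.Spw.orbits P hP hco h1 h2 ε hε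

open Classical in
theorem cosets (P : Set ℕ) (hP : ∀ p ∈ P, 2 ≤ p) (hco : P.Pairwise Nat.Coprime)
    (h1 : ∀ᶠ y : ℕ in atTop, 1000 * Real.log (Real.log (Real.log y)) ≤
      ((P ∩ Set.Iic y).ncard : ℝ))
    (h2 : ∀ C : ℝ, ∃ᶠ y : ℕ in atTop, C * Real.log y ^ 4 ≤ ((P ∩ Set.Iic y).ncard : ℝ))
    (ε : ℝ) (hε : 0 < ε) :
    ∃ C : ℕ, 1 ≤ C ∧ ∀ (N y : ℕ) [NeZero N], C ≤ N →
      C * Real.log (Real.log (Real.log N)) ≤ ((P ∩ Set.Iic y).ncard : ℝ) →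
      ∀ H : Subgroup (ZMod N)ˣ, (∀ p ∈ P, p ≤ y → ∃ h ∈ H, ((h : (ZMod N)ˣ) : ZMod N) = p) →
      ∀ (a : (ZMod N)ˣ) (k : ℤ), k ≠ 0 → |(k : ℝ)| ≤ 1 / ε →
      ‖∑ h : H, ZMod.stdAddChar ((k : ZMod N) * ((a * h : (ZMod N)ˣ) : ZMod N))‖ ≤
        ε * Nat.card H :=
  Furst96.Spw.cosets P hP hco h1 h2 ε hε

open Classical in
theorem first_primes (ε : ℝ) (hε : 0 < ε) :
    ∃ C : ℕ, 1 ≤ C ∧ ∀ (N y : ℕ) [NeZero N], C ≤ N →
      C * Real.log (Real.log (Real.log N)) ≤ (Nat.primeCounting y : ℝ) →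
      ∀ H : Subgroup (ZMod N)ˣ,
      (∀ p : ℕ, p.Prime → p ≤ y → ∃ h ∈ H, ((h : (ZMod N)ˣ) : ZMod N) = p) →
      ∀ (a : (ZMod N)ˣ) (k : ℤ), k ≠ 0 → |(k : ℝ)| ≤ 1 / ε →
      ‖∑ h : H, ZMod.stdAddChar ((k : ZMod N) * ((a * h : (ZMod N)ˣ) : ZMod N))‖ ≤
        ε * Nat.card H :=
  Furst96.Spw.first_primes ε hε

theorem growth_of_summable (P : Set ℕ) (hne : P.Nonempty)
    (h1 : Summable fun j : ℕ => 1 / ((P ∩ Set.Iic (2 ^ 2 ^ j)).ncard : ℝ)) :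
    ∀ᶠ y : ℕ in atTop, 1000 * Real.log (Real.log (Real.log y)) ≤
      ((P ∩ Set.Iic y).ncard : ℝ) :=
  Furst96.Spw.growth_of_summable P hne h1

end Pool.Agent.Results.MP_96e181_an.FewMultipliers
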