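import Pool.Agent.H.MP_96e181_an.pd.Ext
import Pool.Agent.H.MP_96e181_an.ProductOrbit

/-!
# Orbits of ×p ×q invariant measures along sets of positive density

Let `μ₁, …, μ_d` be atomless probability measures on the circle, `μ_i` invariant under `×p_i` and
`×q_i` with `log p_i / log q_i` irrational.  If `A ⊆ ℕ²` has positive upper density along
rectangles `Q_k` with `|Q_k| → ∞`, then for `μ₁ × ⋯ × μ_d`-almost every `x` and every nonempty
open set `V` of the torus, the set of `(m, n) ∈ A` with `(p_i^m q_i^n x_i)_i ∈ V` has positive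
upper density along `(Q_k)` (`result`).  In particular, for every atomless `×p ×q`-invariant
measure `μ` and every set `A` of positive upper Banach density in `ℕ²` or in `ℕ`, the points
`p^m q^n x` with `(m, n) ∈ A` are dense for `μ`-almost every `x`.

Further theorems: in the product of `(μ, ×q)` with an arbitrary probability preserving system,
almost every fibre of an invariant set is null or has full support (`fibres`); almost every
ergodic component of `μ₁ × ⋯ × μ_d` under `×(q₁, …, q_d)` has full support (`components`).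
-/

open MeasureTheory Filter Topology Set ProbabilityTheory

namespace Pool.Agent.Results.MP_96e181_an.PositiveDensity

open Pool.Agent.H.MP_96e181_an in
/-- **Products with arbitrary systems.** Let `μ` be an atomless probability measure on the circle
invariant under `×p` and `×q`, where `log p / log q` is irrational, and let `(Y, ν, S)` be a
probability preserving system with `ν` separable. Let `B` be a measurable set with
`(×q × S)⁻¹ B = B` up to a null set. For `ν`-almost every `y`, the fibre `B_y` is `μ`-null or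
meets every nonempty open set in positive measure. -/
theorem fibres (p q : ℕ) (hp : 2 ≤ p) (hq : 2 ≤ q)
    (hpq : Irrational (Real.log p / Real.log q)) (μ : Measure UnitAddCircle)
    [IsProbabilityMeasure μ] (hna : ∀ x, μ {x} = 0)
    (hμp : MeasurePreserving (fun x : UnitAddCircle => p • x) μ μ)
    (hμq : MeasurePreserving (fun x : UnitAddCircle => q • x) μ μ)
    {Y : Type*} [MeasurableSpace Y] (ν : Measure Y) [IsProbabilityMeasure ν] [IsSeparable ν]
    (S : Y → Y) (hS : MeasurePreserving S ν ν) (B : Set (UnitAddCircle × Y))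
    (hB : MeasurableSet B)
    (hinv : (μ.prod ν) (symmDiff (Prod.map (fun x : UnitAddCircle => q • x) S ⁻¹' B) B) = 0) :
    ∀ᵐ y ∂ν, μ {x | (x, y) ∈ B} = 0 ∨ ∀ V : Set UnitAddCircle, IsOpen V → V.Nonempty →
      0 < μ {x | (x, y) ∈ B ∧ x ∈ V} := by
  have hB1 := TopologicalSpace.isBasis_countableBasis UnitAddCircle
  have h1 : ∀ᵐ y ∂ν, ∀ V ∈ TopologicalSpace.countableBasis UnitAddCircle,
      μ {x | (x, y) ∈ B} ≠ 0 → 0 < μ {x | (x, y) ∈ B ∧ x ∈ V} := by
    rw [ae_ball_iff (TopologicalSpace.countable_countableBasis _)]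
    intro V hV
    exact PD.fibre_full_support hp hq hpq hna hμp hμq hS hB hinv (hB1.isOpen hV)
      (TopologicalSpace.nonempty_of_mem_countableBasis hV)
  filter_upwards [h1] with y hy
  by_cases h0 : μ {x | (x, y) ∈ B} = 0
  · exact Or.inl h0
  · right
    intro V hV hne
    obtain ⟨v, hv⟩ := hne
    obtain ⟨W, hW, hvW, hWV⟩ := hB1.exists_subset_of_mem_open hv hV
    refine (hy W hW h0).trans_le (measure_mono ?_)
    rintro x ⟨hx1, hx2⟩
    exact ⟨hx1, hWV hx2⟩

lemma ncard_eq (A : Set (ℕ × ℕ)) (a b L M : ℕ) :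
    ((A ∩ Ico a (a + L) ×ˢ Ico b (b + M)).ncard : ℝ) =
      Pool.Agent.H.MP_96e181_an.PD.dens A a b L M * ((L : ℝ) * M) := by
  classical
  have h1 : (A ∩ Ico a (a + L) ×ˢ Ico b (b + M)) =
      (((Pool.Agent.H.MP_96e181_an.PD.Q a b L M).filter (· ∈ A) : Finset (ℕ × ℕ)) :
        Set (ℕ × ℕ)) := by
    ext z
    simp only [mem_inter_iff, mem_prod, mem_Ico, Finset.coe_filter, mem_ofPred_eq,
      Pool.Agent.H.MP_96e181_an.PD.Q, Finset.mem_product, Finset.mem_Ico]
    tauto
  rw [h1, Set.ncard_coe_finset]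
  unfold Pool.Agent.H.MP_96e181_an.PD.dens
  by_cases h0 : (L : ℝ) * M = 0
  · have h2 : (Pool.Agent.H.MP_96e181_an.PD.Q a b L M).card = 0 := by
      rw [Pool.Agent.H.MP_96e181_an.PD.card_Q]
      exact_mod_cast h0
    rw [Finset.card_eq_zero] at h2
    rw [h2, h0]
    simp
  · rw [div_mul_cancel₀ _ h0, Finset.card_filter]
    push_cast
    refine Finset.sum_congr rfl fun z _ => ?_
    by_cases hz : z ∈ A <;> simp [hz]

/-- **Main theorem.** Let `μ₁, …, μ_d` be atomless probability measures on the circle, `μ_i`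
invariant under `×p_i` and `×q_i`, where `log p_i / log q_i` is irrational. Let
`Q_k = [a_k, a_k + L_k) × [b_k, b_k + M_k)` be rectangles in `ℕ²` with `L_k M_k → ∞`, and let `A`
be a set of positive upper density along `(Q_k)`. For `μ₁ × ⋯ × μ_d`-almost every `x` and every
nonempty open set `V` of the torus, the set of `(m, n) ∈ A` with `(p_i^m q_i^n x_i)_i ∈ V` has
positive upper density along `(Q_k)`. -/
theorem result (d : ℕ) (p q : Fin d → ℕ) (hp : ∀ i, 2 ≤ p i) (hq : ∀ i, 2 ≤ q i)
    (hpq : ∀ i, Irrational (Real.log (p i) / Real.log (q i)))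
    (μ : Fin d → Measure UnitAddCircle) [∀ i, IsProbabilityMeasure (μ i)]
    (hna : ∀ i x, μ i {x} = 0)
    (hμp : ∀ i, MeasurePreserving (fun x : UnitAddCircle => p i • x) (μ i) (μ i))
    (hμq : ∀ i, MeasurePreserving (fun x : UnitAddCircle => q i • x) (μ i) (μ i))
    (A : Set (ℕ × ℕ)) (a b L M : ℕ → ℕ) (hQ : Tendsto (fun k => L k * M k) atTop atTop)
    (hA : ∃ δ : ℝ, 0 < δ ∧ ∃ᶠ k in atTop, δ * (L k * M k) ≤
      ((A ∩ Ico (a k) (a k + L k) ×ˢ Ico (b k) (b k + M k)).ncard : ℝ)) :
    ∀ᵐ x ∂(Measure.pi μ), ∀ V : Set (Fin d → UnitAddCircle), IsOpen V → V.Nonempty →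
      ∃ ε : ℝ, 0 < ε ∧ ∃ᶠ k in atTop, ε * (L k * M k) ≤
        (({z : ℕ × ℕ | z ∈ A ∧ (fun i => p i ^ z.1 • q i ^ z.2 • x i) ∈ V} ∩
          Ico (a k) (a k + L k) ×ˢ Ico (b k) (b k + M k)).ncard : ℝ) := by
  have hpos : ∀ᶠ k in atTop, (0 : ℝ) < (L k : ℝ) * M k := by
    filter_upwards [hQ.eventually_gt_atTop 0] with k hk
    exact_mod_cast hk
  have hA' : Pool.Agent.H.MP_96e181_an.PD.Pos a b L M A := by
    obtain ⟨δ, hδ, hfreq⟩ := hA
    refine Pool.Agent.H.MP_96e181_an.PD.pos_of_freq hδ ((hfreq.and_eventually hpos).mono ?_)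
    rintro k ⟨hk, hk0⟩
    rw [ncard_eq] at hk
    exact le_of_mul_le_mul_right hk hk0
  filter_upwards [Pool.Agent.H.MP_96e181_an.PD.pos_pi a b L M hQ hA' d p q hp hq hpq μ
    inferInstance hna hμp hμq] with x hx V hV hne
  obtain ⟨ε, hε, hfreq⟩ := (hx V hV hne).exists_freq
  refine ⟨ε, hε, (hfreq.and_eventually hpos).mono ?_⟩
  rintro k ⟨hk, hk0⟩
  rw [ncard_eq]
  exact mul_le_mul_of_nonneg_right hk hk0.le

/-- **Invariant sets of products.** Every Borel subset of the torus invariant under
`×(q₁, …, q_d)` and of positive `μ₁ × ⋯ × μ_d`-measure meets every nonempty open set in a set of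
positive measure. -/
theorem full_support (d : ℕ) (p q : Fin d → ℕ) (hp : ∀ i, 2 ≤ p i) (hq : ∀ i, 2 ≤ q i)
    (hpq : ∀ i, Irrational (Real.log (p i) / Real.log (q i)))
    (μ : Fin d → Measure UnitAddCircle) [∀ i, IsProbabilityMeasure (μ i)]
    (hna : ∀ i x, μ i {x} = 0)
    (hμp : ∀ i, MeasurePreserving (fun x : UnitAddCircle => p i • x) (μ i) (μ i))
    (hμq : ∀ i, MeasurePreserving (fun x : UnitAddCircle => q i • x) (μ i) (μ i))
    (B : Set (Fin d → UnitAddCircle)) (hB : MeasurableSet B)
    (hinv : (fun (x : Fin d → UnitAddCircle) (i : Fin d) => q i • x i) ⁻¹' B = B)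
    (hpos : 0 < Measure.pi μ B)
    (V : Set (Fin d → UnitAddCircle)) (hV : IsOpen V) (hne : V.Nonempty) :
    0 < Measure.pi μ (B ∩ V) := by
  have hT : MeasurePreserving (Pool.Agent.H.MP_96e181_an.SS q) (Measure.pi μ) (Measure.pi μ) :=
    measurePreserving_pi μ μ hμq
  have hinv' : (Pool.Agent.H.MP_96e181_an.SS q) ⁻¹' B = B := hinv
  have hiter : ∀ n : ℕ, ((Pool.Agent.H.MP_96e181_an.SS q)^[n]) ⁻¹' B = B := by
    intro n
    induction n with
    | zero => rfl
    | succ n ih => rw [Function.iterate_succ, preimage_comp, ih, hinv']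
  rw [pos_iff_ne_zero]
  intro h0
  have hnull : ∀ n : ℕ, Measure.pi μ (((Pool.Agent.H.MP_96e181_an.SS q)^[n]) ⁻¹' (B ∩ V)) = 0 := by
    intro n
    rw [(hT.iterate n).measure_preimage (hB.inter hV.measurableSet).nullMeasurableSet, h0]
  have hall : Measure.pi μ (⋃ n : ℕ, ((Pool.Agent.H.MP_96e181_an.SS q)^[n]) ⁻¹' (B ∩ V)) = 0 :=
    measure_iUnion_null hnull
  have hdense := Pool.Agent.H.MP_96e181_an.product_orbit d p q hp hq hpq μ inferInstance hna
    hμp hμq
  have hle : Measure.pi μ B ≤
      Measure.pi μ (⋃ n : ℕ, ((Pool.Agent.H.MP_96e181_an.SS q)^[n]) ⁻¹' (B ∩ V)) := by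
    refine measure_mono_ae ?_
    filter_upwards [hdense] with x hx hxB
    obtain ⟨_, hyV, ⟨n, rfl⟩⟩ := hx.inter_open_nonempty V hV hne
    refine mem_iUnion.2 ⟨n, ?_, ?_⟩
    · show x ∈ ((Pool.Agent.H.MP_96e181_an.SS q)^[n]) ⁻¹' B
      rw [hiter n]
      exact hxB
    · show (Pool.Agent.H.MP_96e181_an.SS q)^[n] x ∈ V
      rw [Pool.Agent.H.MP_96e181_an.SS_iter]
      exact hyV
  exact hpos.ne' (le_antisymm (hle.trans hall.le) bot_le)

/-- **Ergodic components.** In the situation of `full_support`, almost every conditional measure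
of `μ₁ × ⋯ × μ_d` given the σ-algebra of `×(q₁, …, q_d)`-invariant Borel sets has full support. -/
theorem components (d : ℕ) (p q : Fin d → ℕ) (hp : ∀ i, 2 ≤ p i) (hq : ∀ i, 2 ≤ q i)
    (hpq : ∀ i, Irrational (Real.log (p i) / Real.log (q i)))
    (μ : Fin d → Measure UnitAddCircle) [∀ i, IsProbabilityMeasure (μ i)]
    (hna : ∀ i x, μ i {x} = 0)
    (hμp : ∀ i, MeasurePreserving (fun x : UnitAddCircle => p i • x) (μ i) (μ i))
    (hμq : ∀ i, MeasurePreserving (fun x : UnitAddCircle => q i • x) (μ i) (μ i)) :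
    ∀ᵐ x ∂(Measure.pi μ), ∀ V : Set (Fin d → UnitAddCircle), IsOpen V → V.Nonempty →
      0 < condExpKernel (Measure.pi μ)
        (MeasurableSpace.invariants (fun (x : Fin d → UnitAddCircle) (i : Fin d) => q i • x i))
        x V := by
  set T : (Fin d → UnitAddCircle) → (Fin d → UnitAddCircle) := fun x i => q i • x i with hTdef
  have hle : MeasurableSpace.invariants T ≤ MeasurableSpace.pi := MeasurableSpace.invariants_le T
  have hB := TopologicalSpace.isBasis_countableBasis (Fin d → UnitAddCircle)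
  have key : ∀ᵐ x ∂(Measure.pi μ), ∀ V ∈ TopologicalSpace.countableBasis (Fin d → UnitAddCircle),
      0 < condExpKernel (Measure.pi μ) (MeasurableSpace.invariants T) x V := by
    rw [ae_ball_iff (TopologicalSpace.countable_countableBasis _)]
    intro V hV
    have hVo := hB.isOpen hV
    have hVne := TopologicalSpace.nonempty_of_mem_countableBasis hV
    set D : Set (Fin d → UnitAddCircle) :=
      {x | condExpKernel (Measure.pi μ) (MeasurableSpace.invariants T) x V = 0} with hD
    have hDm : MeasurableSet[MeasurableSpace.invariants T] D :=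
      (measurable_condExpKernel hVo.measurableSet) (measurableSet_singleton 0)
    have hDm' := MeasurableSpace.measurableSet_invariants.1 hDm
    have h0 : Measure.pi μ (D ∩ V) = 0 := by
      have h1 := compProd_trim_condExpKernel (μ := Measure.pi μ) hle
      have h2 : MeasurableSet[(MeasurableSpace.invariants T).prod MeasurableSpace.pi]
          (D ×ˢ V) := MeasurableSet.prod hDm hVo.measurableSet
      have h3 := congrArg (fun m => m (D ×ˢ V)) h1
      rw [Measure.compProd_apply_prod hDm hVo.measurableSet] at h3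
      have h4 : ∫⁻ a in D, condExpKernel (Measure.pi μ) (MeasurableSpace.invariants T) a V
          ∂((Measure.pi μ).trim hle) = 0 := by
        rw [setLIntegral_congr_fun hDm (g := fun _ => 0) (fun x hx => hx)]
        simp
      rw [h4, Measure.map_apply ?_ h2] at h3
      · exact h3.symm
      · exact (measurable_id'' hle).prodMk measurable_id
    have hD0 : Measure.pi μ D = 0 := by
      by_contra hne
      have := full_support d p q hp hq hpq μ hna hμp hμq D hDm'.1 hDm'.2 (pos_iff_ne_zero.2 hne)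
        V hVo hVne
      exact this.ne' h0
    have : ∀ᵐ x ∂(Measure.pi μ), x ∉ D := measure_eq_zero_iff_ae_notMem.1 hD0
    filter_upwards [this] with x hx
    exact pos_iff_ne_zero.2 hx
  filter_upwards [key] with x hx V hV hne
  obtain ⟨y, hy⟩ := hne
  obtain ⟨W, hW, hyW, hWV⟩ := hB.exists_subset_of_mem_open hy hV
  exact (hx W hW).trans_le (measure_mono hWV)

end Pool.Agent.Results.MP_96e181_an.PositiveDensity
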