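import Pool.Agent.H.MP_96e181_an.DenseOrbit

/-!
# `×p`-invariant measures and `×q`-invariant closed sets

Let `p, q ≥ 2` be multiplicatively independent integers. Furstenberg's theorem of 1967 says that a
proper closed subset of the circle which is mapped into itself by `×p` and by `×q` is finite. Here
the invariance is split: an atomless probability measure which is invariant under `×p` gives
measure `0` to every proper closed set which is mapped into itself by `×q` (`result`). For
example, every atomless `×2`-invariant probability measure vanishes on the middle-third Cantor set.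

Equivalently, almost every point has a dense `×r`-orbit for every `r` multiplicatively independent
of `p` (`disjunctive`). If the measure is invariant under `×p` and `×q`, this holds for every
integer `r ≥ 2` (`every_base`).
-/

open MeasureTheory Set

namespace Pool.Agent.Results.MP_96e181_an.SplitInvariance

/-- **Main theorem.** Let `p, q ≥ 2` be integers with `log p / log q` irrational, `μ` an atomless
Borel probability measure on the circle invariant under `x ↦ p x`, and `X` a closed set, not the
whole circle, which is mapped into itself by `x ↦ q x`. Then `μ X = 0`. -/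
theorem result (p q : ℕ) (hp : 2 ≤ p) (hq : 2 ≤ q)
    (hpq : Irrational (Real.log p / Real.log q)) (μ : Measure UnitAddCircle)
    [IsProbabilityMeasure μ] (hna : ∀ x, μ {x} = 0)
    (hμ : MeasurePreserving (fun x : UnitAddCircle => p • x) μ μ)
    (X : Set UnitAddCircle) (hX : IsClosed X) (hproper : X ≠ univ) (hinv : ∀ x ∈ X, q • x ∈ X) :
    μ X = 0 := by
  have : NullSingletonClass μ := ⟨hna⟩
  have h1 : ∀ᵐ x ∂μ, x ∉ X := by
    filter_upwards [H.MP_96e181_an.ae_dense_orbit hp hq hpq hμ] with x hx hxX
    apply hproper
    have hmem : ∀ n : ℕ, q ^ n • x ∈ X := by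
      intro n
      induction n with
      | zero => simpa using hxX
      | succ n ih => rw [pow_succ', mul_smul]; exact hinv _ ih
    have h2 : Dense X := hx.mono (by rintro _ ⟨n, rfl⟩; exact hmem n)
    rw [← hX.closure_eq]
    exact h2.closure_eq
  exact measure_eq_zero_iff_ae_notMem.2 h1

/-- Let `μ` be an atomless Borel probability measure on the circle invariant under `x ↦ p x`. For
`μ`-almost every `x`, the orbit `{r ^ n x : n ≥ 0}` is dense for every integer `r ≥ 2`
multiplicatively independent of `p`. -/
theorem disjunctive (p : ℕ) (hp : 2 ≤ p) (μ : Measure UnitAddCircle) [IsProbabilityMeasure μ]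
    (hna : ∀ x, μ {x} = 0) (hμ : MeasurePreserving (fun x : UnitAddCircle => p • x) μ μ) :
    ∀ᵐ x ∂μ, ∀ r : ℕ, 2 ≤ r → Irrational (Real.log p / Real.log r) →
      Dense (range fun n : ℕ => r ^ n • x) := by
  have : NullSingletonClass μ := ⟨hna⟩
  rw [ae_all_iff]
  intro r
  by_cases hr : 2 ≤ r ∧ Irrational (Real.log p / Real.log r)
  · filter_upwards [H.MP_96e181_an.ae_dense_orbit hp hr.1 hr.2 hμ] with x hx _ _
    exact hx
  · exact Filter.Eventually.of_forall fun x h1 h2 => absurd ⟨h1, h2⟩ hr

/-- Let `p, q ≥ 2` be multiplicatively independent and let `μ` be an atomless Borel probability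
measure on the circle invariant under `x ↦ p x` and under `x ↦ q x`. For `μ`-almost every `x`, the
orbit `{r ^ n x : n ≥ 0}` is dense for every integer `r ≥ 2`. -/
theorem every_base (p q : ℕ) (hp : 2 ≤ p) (hq : 2 ≤ q)
    (hpq : Irrational (Real.log p / Real.log q)) (μ : Measure UnitAddCircle)
    [IsProbabilityMeasure μ] (hna : ∀ x, μ {x} = 0)
    (hμp : MeasurePreserving (fun x : UnitAddCircle => p • x) μ μ)
    (hμq : MeasurePreserving (fun x : UnitAddCircle => q • x) μ μ) :
    ∀ᵐ x ∂μ, ∀ r : ℕ, 2 ≤ r → Dense (range fun n : ℕ => r ^ n • x) := by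
  filter_upwards [disjunctive p hp μ hna hμp, disjunctive q hq μ hna hμq] with x h1 h2 r hr
  by_cases h3 : Irrational (Real.log p / Real.log r)
  · exact h1 r hr h3
  by_cases h4 : Irrational (Real.log q / Real.log r)
  · exact h2 r hr h4
  exfalso
  unfold Irrational at h3 h4
  push Not at h3 h4
  obtain ⟨a, ha⟩ := h3
  obtain ⟨b, hb⟩ := h4
  have hlr : Real.log r ≠ 0 := (Real.log_pos (by exact_mod_cast hr)).ne'
  apply hpq
  refine ⟨a / b, ?_⟩
  rw [Rat.cast_div, ha, hb, div_div_div_cancel_right₀ hlr]

end Pool.Agent.Results.MP_96e181_an.SplitInvariance
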