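import Mathlib
import Pool.Agent.H.MP_96e181_an.win.SUnion
import Pool.Agent.H.MP_96e181_an.helper43.Renyi

set_option autoImplicit false

open MeasureTheory

namespace Pool.Agent.Results.MP_96e181_an.UniversalSpeed

/-- The half-open interval `[a/D, (a+1)/D)` of the circle. -/
def cell (D a : ℕ) : Set UnitAddCircle :=
  (fun x : ℝ => (x : UnitAddCircle)) '' Set.Ico ((a : ℝ) / D) (((a : ℝ) + 1) / D)

/-- The sum over the `p ^ D` intervals of length `p ^ (-D)` of the measure of the heaviest of its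
`p ^ W` subintervals of length `p ^ (-(D + W))`. -/
noncomputable def heaviest (μ : Measure UnitAddCircle) (p D W : ℕ) : ℝ :=
  ∑ a ∈ Finset.range (p ^ D), ⨆ b : Fin (p ^ W), μ.real (cell (p ^ (D + W)) (a * p ^ W + b))

/-- **Universal speed in the theorem of Rudolph and Johnson.** Let `μ` be `×p`, `×q`-invariant and
let `σ` be the mass of its part singular to Lebesgue measure. For every `A` and `ε > 0` there is
`C` such that, whenever `r` is a good rational approximation of `log q / log p` with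
`p ^ W ≤ r.den ^ A` and `C ≤ r.den ≤ D / C`, the sum `heaviest μ p D W` is at least `σ - ε`, and at
most `σ + ε` if moreover `W ≥ C`. -/
theorem result (p q : ℕ) (hp : 2 ≤ p) (hq : 2 ≤ q)
    (h : Irrational (Real.log (p : ℝ) / Real.log (q : ℝ)))
    (μ : Measure UnitAddCircle) [IsProbabilityMeasure μ]
    (hμp : MeasurePreserving (fun x : UnitAddCircle => p • x) μ μ)
    (hμq : MeasurePreserving (fun x : UnitAddCircle => q • x) μ μ)
    (A : ℕ) (ε : ℝ) (hε : 0 < ε) :
    ∃ C : ℕ, ∀ (D W : ℕ) (r : ℚ),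
      |Real.log (q : ℝ) / Real.log (p : ℝ) - r| < 1 / (r.den : ℝ) ^ 2 →
      p ^ W ≤ r.den ^ A → C ≤ r.den → C * r.den ≤ D →
        (μ.singularPart volume).real Set.univ - ε ≤ heaviest μ p D W ∧
        (C ≤ W → heaviest μ p D W ≤ (μ.singularPart volume).real Set.univ + ε) := by
  obtain ⟨C, hC⟩ := Pool.Agent.H.MP_96e181_an.Win.speed_general hp hq h hμp hμq A hε
  refine ⟨C, fun D W r hr h0 h1 h2 => ?_⟩
  have h3 := hC D W r hr h0 h1 h2
  have h4 : heaviest μ p D W =
      ∑ a ∈ Finset.range (p ^ D), Pool.Agent.H.MP_96e181_an.Win.top p μ D W a := by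
    rw [heaviest]
    refine Finset.sum_congr rfl fun a ha => ?_
    rw [Pool.Agent.H.MP_96e181_an.Win.top]
    refine iSup_congr fun b => ?_
    have hlt : a * p ^ W + (b : ℕ) < p ^ (D + W) := by
      have h5 : a + 1 ≤ p ^ D := Finset.mem_range.1 ha
      calc a * p ^ W + (b : ℕ) < a * p ^ W + p ^ W := Nat.add_lt_add_left b.2 _
        _ = (a + 1) * p ^ W := by ring
        _ ≤ p ^ D * p ^ W := Nat.mul_le_mul_right _ h5
        _ = p ^ (D + W) := (pow_add _ _ _).symm
    have h6 := Pool.Agent.H.MP_96e181_an.helper43.image_Ico_eq (D := p ^ (D + W))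
      (a := a * p ^ W + b) (by positivity) hlt
    rw [cell]
    rw [h6]
  rw [h4]
  exact h3

end Pool.Agent.Results.MP_96e181_an.UniversalSpeed
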